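import Pool.Agent.H230Z.CanMain

set_option autoImplicit false

open MeasureTheory

namespace Pool.Agent.Results.MP_49e1f6_an.ZFCExample

open Pool.Agent.H230Z.Can

/-- With no extra set-theoretic hypothesis there is a set of reals of positive Lebesgue outer
measure all of whose translates have outer Cantor measure zero. -/
theorem result :
    ∃ X : Set ℝ, 0 < volume X ∧ ∀ t : ℝ, cantorMeasure ((fun x => x + t) '' X) = 0 :=
  main

end Pool.Agent.Results.MP_49e1f6_an.ZFCExample
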